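import Pool.Agent.helper1.PR.Defs

namespace Pool.Agent.helper1.PR

open Finset

private theorem h76_natCast_re (n : ℕ) : ((n : ℤ√2)).re = n := by simp
private theorem h76_natCast_im (n : ℕ) : ((n : ℤ√2)).im = 0 := by simp

theorem exists_N {Q' : ℕ} {z : ℤ√2} (h1 : (4 * (Q' : ℤ)) ∣ z.re)
    (h2 : (4 * (Q' : ℤ)) ∣ z.im - 1) :
    ∃ N : ℤ√2, 4 * (Q' : ℤ√2) * N = z ^ 3 - 2 * Zsqrtd.sqrtd := by
  obtain ⟨u, hu⟩ := h1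
  obtain ⟨v, hv⟩ := h2
  obtain ⟨a, b⟩ := z
  simp only at hu hv
  obtain rfl : b = 1 + 4 * Q' * v := by linarith
  subst hu
  refine ⟨⟨u * (4 * Q' * u) ^ 2 + 6 * u * (1 + 4 * Q' * v) ^ 2,
    3 * u * (4 * Q' * u) * (1 + 4 * Q' * v) +
      2 * v * ((1 + 4 * Q' * v) ^ 2 + (1 + 4 * Q' * v) + 1)⟩, ?_⟩
  have e : (4 : ℤ√2) = ((4 : ℕ) : ℤ√2) := by norm_num
  have e2 : (2 : ℤ√2) = ((2 : ℕ) : ℤ√2) := by norm_num
  rw [e, e2]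
  apply Zsqrtd.ext
  · simp [pow_three]
    ring
  · simp [pow_three]
    ring

theorem xx_eq {Q' Lw Ly : ℕ} (hQ : 0 < Q') {N z : ℤ√2}
    (hN : 4 * (Q' : ℤ√2) * N = z ^ 3 - 2 * Zsqrtd.sqrtd) {p : ℤ√2 × ℤ√2}
    (hp : p ∈ Om Q' Lw Ly) :
    2 * (2 * (Q' : ℤ√2)) * xx Q' N p + 2 * Zsqrtd.sqrtd * p.2 = p.1 * z ^ 3 := by
  obtain ⟨w, y⟩ := p
  simp only [Om, mem_filter] at hp
  obtain ⟨-, ⟨s, hs⟩, ⟨t, ht⟩⟩ := hp
  have hQ0 : (Q' : ℤ) ≠ 0 := by exact_mod_cast hQ.ne'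
  have htt : tt Q' (w, y) = ⟨t, s⟩ := by
    unfold tt
    simp only
    rw [ht, hs, Int.mul_ediv_cancel_left _ hQ0, Int.mul_ediv_cancel_left _ (by positivity)]
  have hz : z ^ 3 = 4 * (Q' : ℤ√2) * N + 2 * Zsqrtd.sqrtd := by rw [hN]; ring
  have key : 4 * (Q' : ℤ√2) * (⟨t, s⟩ : ℤ√2) = 2 * Zsqrtd.sqrtd * (w - y) := by
    have e : (4 : ℤ√2) = ((4 : ℕ) : ℤ√2) := by norm_num
    have e2 : (2 : ℤ√2) = ((2 : ℕ) : ℤ√2) := by norm_num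
    rw [e, e2]
    apply Zsqrtd.ext
    · simp
      linear_combination (-4 : ℤ) * ht
    · simp
      linear_combination (-2 : ℤ) * hs
  unfold xx
  simp only
  rw [htt, hz]
  linear_combination key

/-- cubes are injective -/
theorem cube_inj {z₁ z₂ : ℤ√2} (h1 : 0 < z₁.re) (h1' : 0 ≤ z₁.im) (h2 : 0 < z₂.re)
    (h2' : 0 ≤ z₂.im) (h : z₁ ^ 3 = z₂ ^ 3) : z₁ = z₂ := by
  have hf : (z₁ - z₂) * (z₁ ^ 2 + z₁ * z₂ + z₂ ^ 2) = 0 := by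
    have : (z₁ - z₂) * (z₁ ^ 2 + z₁ * z₂ + z₂ ^ 2) = z₁ ^ 3 - z₂ ^ 3 := by ring
    rw [this, h, sub_self]
  have hns : ∀ n : ℤ, (2 : ℤ) ≠ n * n := by
    intro n hn
    have h5 : n < 2 := by nlinarith
    have h6 : -2 < n := by nlinarith
    interval_cases n <;> omega
  have hnorm := congrArg Zsqrtd.norm hf
  rw [Zsqrtd.norm_mul] at hnorm
  have hz0 : Zsqrtd.norm (0 : ℤ√2) = 0 := by simp [Zsqrtd.norm]
  rw [hz0] at hnorm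
  rcases mul_eq_zero.1 hnorm with h0 | h0
  · have := (Zsqrtd.norm_eq_zero hns _).1 h0
    exact sub_eq_zero.1 this
  · have h3 := (Zsqrtd.norm_eq_zero hns _).1 h0
    have h4 := congrArg Zsqrtd.re h3
    simp [pow_two] at h4
    nlinarith [mul_nonneg h1' h1', mul_nonneg h1' h2', mul_nonneg h2' h2', mul_pos h1 h1,
      mul_pos h1 h2, mul_pos h2 h2]

private theorem h76_count {r : ℕ} (hr : 0 < r) (m : ℕ) (a v : ℤ) :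
    #{x ∈ Ico a (a + r * m) | (r : ℤ) ∣ v - x} = m := by
  have e : ({x ∈ Ico a (a + r * m) | (r : ℤ) ∣ v - x} : Finset ℤ) =
      {x ∈ Ico a (a + r * m) | x ≡ v [ZMOD (r : ℤ)]} := by
    apply filter_congr
    intro x _
    rw [Int.modEq_iff_dvd]
  have h := Int.Ico_filter_modEq_card a (a + r * m) (r := (r : ℤ)) (by exact_mod_cast hr) v
  rw [e]
  have hr' : (r : ℚ) ≠ 0 := by exact_mod_cast hr.ne'
  have e2 : ((a + r * m : ℤ) - v : ℚ) / ((r : ℤ) : ℚ) = ((a : ℚ) - v) / ((r : ℤ) : ℚ) + (m : ℤ) := by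
    push_cast
    field_simp
    ring
  rw [e2, Int.ceil_add_intCast] at h
  have h3 : ((#{x ∈ Ico a (a + r * m) | x ≡ v [ZMOD (r : ℤ)]} : ℕ) : ℤ) = (m : ℤ) := by
    rw [h]
    simp
  exact_mod_cast h3

private theorem h76_countBox {Q' L : ℕ} (hQ : 0 < Q') (h : 2 * Q' ∣ L) (v : ℤ√2) :
    (#{y ∈ box L | (2 * (Q' : ℤ)) ∣ v.re - y.re ∧ (Q' : ℤ) ∣ v.im - y.im} : ℝ) =
      ((L : ℝ) / Q') ^ 2 := by
  obtain ⟨k, rfl⟩ := h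
  have h1 : #{y ∈ box (2 * Q' * k) | (2 * (Q' : ℤ)) ∣ v.re - y.re ∧ (Q' : ℤ) ∣ v.im - y.im} =
      (2 * k) * (2 * k) := by
    have e : #{y ∈ box (2 * Q' * k) | (2 * (Q' : ℤ)) ∣ v.re - y.re ∧ (Q' : ℤ) ∣ v.im - y.im} =
        #(({x ∈ Ico (2 * ((2 * Q' * k : ℕ) : ℤ)) (2 * ((2 * Q' * k : ℕ) : ℤ) +
            ((2 * Q' : ℕ) : ℤ) * ((2 * k : ℕ) : ℤ)) | ((2 * Q' : ℕ) : ℤ) ∣ v.re - x}) ×ˢ
          ({x ∈ Ico (0 : ℤ) (0 + (Q' : ℤ) * ((2 * k : ℕ) : ℤ)) | ((Q' : ℕ) : ℤ) ∣ v.im - x})) := by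
      rw [box, filter_map, card_map, ← filter_product]
      have e3 : (4 * ((2 * Q' * k : ℕ) : ℤ)) = 2 * ((2 * Q' * k : ℕ) : ℤ) +
            ((2 * Q' : ℕ) : ℤ) * ((2 * k : ℕ) : ℤ) := by push_cast; ring
      have e4 : 0 + (Q' : ℤ) * ((2 * k : ℕ) : ℤ) = ((2 * Q' * k : ℕ) : ℤ) := by push_cast; ring
      rw [e3, e4]
      congr 1
    rw [e, card_product, h76_count (by positivity) (2 * k), h76_count hQ (2 * k)]
  rw [h1]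
  have hQ0 : (Q' : ℝ) ≠ 0 := by exact_mod_cast hQ.ne'
  push_cast
  field_simp

theorem sum_Om_left {Q' Lw Ly : ℕ} (hQ : 0 < Q') (h : 2 * Q' ∣ Ly) (F : ℤ√2 → ℝ) :
    ∑ p ∈ Om Q' Lw Ly, F p.1 = ((Ly : ℝ) / Q') ^ 2 * ∑ w ∈ box Lw, F w := by
  rw [Om, sum_filter, sum_product, mul_sum]
  apply sum_congr rfl
  intro w _
  rw [← sum_filter]
  simp only
  rw [sum_const, nsmul_eq_mul, h76_countBox hQ h w]

theorem sum_Om_right {Q' Lw Ly : ℕ} (hQ : 0 < Q') (h : 2 * Q' ∣ Lw) (F : ℤ√2 → ℝ) :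
    ∑ p ∈ Om Q' Lw Ly, F p.2 = ((Lw : ℝ) / Q') ^ 2 * ∑ y ∈ box Ly, F y := by
  rw [Om, sum_filter, sum_product_right, mul_sum]
  apply sum_congr rfl
  intro y _
  rw [← sum_filter]
  simp only
  rw [sum_const, nsmul_eq_mul]
  have e : ({w ∈ box Lw | (2 * (Q' : ℤ)) ∣ w.re - y.re ∧ (Q' : ℤ) ∣ w.im - y.im} :
      Finset (ℤ√2)) = {w ∈ box Lw | (2 * (Q' : ℤ)) ∣ y.re - w.re ∧ (Q' : ℤ) ∣ y.im - w.im} := by
    apply filter_congr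
    intro w _
    rw [dvd_sub_comm, dvd_sub_comm (a := (Q' : ℤ))]
  rw [e, h76_countBox hQ h y]

theorem card_Om {Q' Lw Ly : ℕ} (hQ : 0 < Q') (h : 2 * Q' ∣ Ly) :
    (#(Om Q' Lw Ly) : ℝ) = 2 * (Lw : ℝ) ^ 2 * ((Ly : ℝ) / Q') ^ 2 := by
  have h1 := sum_Om_left (Lw := Lw) hQ h (fun _ => 1)
  simp only [sum_const, nsmul_eq_mul, mul_one] at h1
  rw [h1, card_box]
  push_cast
  ring

end Pool.Agent.helper1.PR
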